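import Pool.Agent.X276.Pure
import Pool.Agent.X276.Ord

/-!
# Excellent regular rings of prime characteristic are F-pure regular

Every excellent regular ring `R` of prime characteristic `p` is F-pure regular: for every element
`c` outside the minimal primes there is `e ≥ 1` for which `R → F^e_* R`, `r ↦ F^e_* (c r^{p^e})`,
is pure. Of excellence only the following consequence of the condition J-2 is used: for every prime
`P` the regular locus of `R/P` contains a nonempty open set.

The proof: the order of `c` at the primes of `R` is bounded (noetherian induction: on a nonempty open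
subset of `V(P)` the ideal `P` is generated by a part of a regular system of parameters, and the
leading form of `c` along `P` has a unit coefficient); and if `p^e` exceeds the orders of `c` at all
primes then the map is pure, as `F^e_* R_m` is flat over the regular local ring `R_m` and `F^e_* c`
is not in `m F^e_* R_m`.
-/

set_option autoImplicit false

universe u

namespace Pool.Agent.Results.MP_9ff724_al.ExcellentRegularFPure

open TensorProduct IsLocalRing

/-! ### Excellent rings -/

/-- The regular locus of `R`: the primes `P` for which `R_P` is a regular local ring. -/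
def regularLocus (R : Type u) [CommRing R] : Set (PrimeSpectrum R) :=
  {P | IsRegularLocalRing (Localization.AtPrime P.asIdeal)}

/-- `R` is J-2: the regular locus of every finitely generated `R`-algebra is open. -/
def IsJTwo (R : Type u) [CommRing R] : Prop :=
  ∀ (S : Type u) [CommRing S] [Algebra R S], Algebra.FiniteType R S → IsOpen (regularLocus S)

/-- A ring is catenary if any two saturated chains of primes (every step is a covering) with the same
ends have the same length. -/
def IsCatenary (S : Type u) [CommRing S] : Prop :=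
  ∀ a b : RelSeries {(P, Q) : PrimeSpectrum S × PrimeSpectrum S | P ⋖ Q},
    a.head = b.head → a.last = b.last → a.length = b.length

/-- A ring is universally catenary if all its finitely generated algebras are catenary. -/
def IsUniversallyCatenary (R : Type u) [CommRing R] : Prop :=
  ∀ (S : Type u) [CommRing S] [Algebra R S], Algebra.FiniteType R S → IsCatenary S

/-- A `k`-algebra `S` is geometrically regular over the field `k` if `L ⊗ S` is a (noetherian)
regular ring for every finite extension field `L` of `k`. -/
def IsGeometricallyRegular (k S : Type u) [Field k] [CommRing S] [Algebra k S] : Prop :=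
  ∀ (L : Type u) [Field L] [Algebra k L], Module.Finite k L → IsRegularRing (L ⊗[k] S)

/-- `R` is a G-ring: the formal fibres of its local rings, that is, the fibres of the maps from
`R_P` to its completion, are geometrically regular. -/
def IsGRing (R : Type u) [CommRing R] : Prop :=
  ∀ (P : Ideal R) [P.IsPrime] (Q : Ideal (Localization.AtPrime P)) [Q.IsPrime],
    IsGeometricallyRegular Q.ResidueField (Q.ResidueField ⊗[Localization.AtPrime P]
      AdicCompletion (maximalIdeal (Localization.AtPrime P)) (Localization.AtPrime P))

/-- Excellent rings. -/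
structure IsExcellent (R : Type u) [CommRing R] : Prop where
  /-- noetherian -/
  noetherian : IsNoetherianRing R
  /-- universally catenary -/
  universallyCatenary : IsUniversallyCatenary R
  /-- G-ring -/
  gRing : IsGRing R
  /-- J-2 -/
  jTwo : IsJTwo R

/-! ### F-pure regular rings -/

/-- `F^e_* R`: the group `R`, regarded as an `R`-module through the `e`-th power of Frobenius. -/
def FrobPush (R : Type u) (_p _e : ℕ) : Type u := R

instance (R : Type u) [CommRing R] (p e : ℕ) : AddCommGroup (FrobPush R p e) :=
  inferInstanceAs (AddCommGroup R)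

instance (R : Type u) [CommRing R] (p e : ℕ) [ExpChar R p] : Module R (FrobPush R p e) :=
  Module.compHom R (iterateFrobenius R p e)

/-- the element `F^e_* s` -/
def FrobPush.of (R : Type u) (p e : ℕ) (s : R) : FrobPush R p e := s

/-- The scalar multiplication of `F^e_* R`. -/
theorem FrobPush.smul_of (R : Type u) [CommRing R] (p e : ℕ) [ExpChar R p] (r s : R) :
    r • FrobPush.of R p e s = FrobPush.of R p e (r ^ p ^ e * s) := rfl

/-- the `R`-linear map `λ^e_c : R → F^e_* R`, `r ↦ F^e_* (c r^{p^e})` -/
def lam {R : Type u} [CommRing R] (p e : ℕ) [ExpChar R p] (c : R) : R →ₗ[R] FrobPush R p e where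
  toFun r := FrobPush.of R p e (c * r ^ p ^ e)
  map_add' := by
    intro x y
    change c * (x + y) ^ p ^ e = c * x ^ p ^ e + c * y ^ p ^ e
    rw [add_pow_expChar_pow, mul_add]
  map_smul' := by
    intro r x
    change c * (r * x) ^ p ^ e = r ^ p ^ e * (c * x ^ p ^ e)
    rw [mul_pow]
    ring

/-- A map `M → N` of `R`-modules is pure if `M ⊗ P → N ⊗ P` is injective for all modules `P`. -/
def IsPureMap {R M N : Type u} [CommRing R] [AddCommGroup M] [Module R M] [AddCommGroup N]
    [Module R N] (f : M →ₗ[R] N) : Prop :=
  ∀ (P : Type u) [AddCommGroup P] [Module R P], Function.Injective (LinearMap.rTensor P f)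

/-- `R` is F-pure regular: for every `c` in no minimal prime some `λ^e_c`, `e ≥ 1`, is pure. -/
def IsFPureRegular (R : Type u) [CommRing R] (p : ℕ) [ExpChar R p] : Prop :=
  ∀ c : R, (∀ P ∈ minimalPrimes R, c ∉ P) → ∃ e : ℕ, 1 ≤ e ∧ IsPureMap (lam p e c)

theorem general (R : Type u) [CommRing R] [IsRegularRing R] (p : ℕ) [hp : Fact p.Prime]
    [CharP R p]
    (hJ : ∀ (P : Ideal R) [P.IsPrime], ∃ U : Set (PrimeSpectrum (R ⧸ P)),
      IsOpen U ∧ U.Nonempty ∧ U ⊆ regularLocus (R ⧸ P)) : IsFPureRegular R p := by
  intro c hc
  obtain ⟨N, hN⟩ := Pool.Agent.X276.Od.bound c hc (by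
    intro P hP
    obtain ⟨U, hU, ⟨x, hx⟩, hUr⟩ := hJ P
    obtain ⟨_, ⟨g', rfl⟩, hxg, hgU⟩ :=
      PrimeSpectrum.isTopologicalBasis_basic_opens.exists_subset_of_mem_open hx hU
    obtain ⟨g, rfl⟩ := Ideal.Quotient.mk_surjective g'
    refine ⟨g, ?_, ?_⟩
    · intro hg
      have h0 : Ideal.Quotient.mk P g = 0 := Ideal.Quotient.eq_zero_iff_mem.2 hg
      rw [h0] at hxg
      exact hxg (Ideal.zero_mem _)
    · intro Q hQ hPQ hgQ
      have hker : RingHom.ker (Ideal.Quotient.mk P) ≤ Q := by rw [Ideal.mk_ker]; exact hPQ
      have hQ' : (Q.map (Ideal.Quotient.mk P)).IsPrime :=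
        Ideal.map_isPrime_of_surjective Ideal.Quotient.mk_surjective hker
      have hcomap : (Q.map (Ideal.Quotient.mk P)).comap (Ideal.Quotient.mk P) = Q := by
        rw [Ideal.comap_map_of_surjective _ Ideal.Quotient.mk_surjective,
          ← RingHom.ker_eq_comap_bot, Ideal.mk_ker, sup_eq_left]
        exact hPQ
      have hmem : (⟨Q.map (Ideal.Quotient.mk P), hQ'⟩ : PrimeSpectrum (R ⧸ P)) ∈ U := by
        apply hgU
        intro h1
        apply hgQ
        rw [← hcomap]
        exact h1
      exact Pool.Agent.X276.Od.reg_quot P Q (Q.map (Ideal.Quotient.mk P)) hcomap (hUr hmem))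
  obtain ⟨e, he⟩ : ∃ e : ℕ, N ≤ p ^ e := by
    obtain ⟨e, he⟩ := pow_unbounded_of_one_lt N hp.out.one_lt
    exact ⟨e, he.le⟩
  refine ⟨e + 1, Nat.le_add_left 1 e, ?_⟩
  intro P _ _
  refine Pool.Agent.X276.Fr.pure_of p (e + 1) c ?_ P
  intro m hm hmem
  exact hN m (Ideal.pow_le_pow_right
    (he.trans (Nat.pow_le_pow_right hp.out.pos (Nat.le_succ e))) hmem)

/-- Every excellent regular ring `R` of prime characteristic `p` is F-pure regular. Moreover this
holds for every regular ring `R` of characteristic `p` such that for every prime `P` the regular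
locus of `R/P` contains a nonempty open set. -/
theorem result :
    (∀ (R : Type u) [CommRing R] [IsRegularRing R] (p : ℕ) [Fact p.Prime] [CharP R p],
      IsExcellent R → IsFPureRegular R p) ∧
    (∀ (R : Type u) [CommRing R] [IsRegularRing R] (p : ℕ) [Fact p.Prime] [CharP R p],
      (∀ (P : Ideal R) [P.IsPrime], ∃ U : Set (PrimeSpectrum (R ⧸ P)),
        IsOpen U ∧ U.Nonempty ∧ U ⊆ regularLocus (R ⧸ P)) → IsFPureRegular R p) := by
  refine ⟨?_, fun R _ _ p _ _ h => general R p h⟩
  intro R _ _ p _ _ hR
  refine general R p ?_
  intro P hP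
  refine ⟨regularLocus (R ⧸ P), hR.jTwo (R ⧸ P) inferInstance, ?_, subset_rfl⟩
  refine ⟨⊥, ?_⟩
  change IsRegularLocalRing (Localization.AtPrime (⊥ : Ideal (R ⧸ P)))
  have hfield : IsField (Localization.AtPrime (⊥ : Ideal (R ⧸ P))) := by
    rw [isField_iff_maximalIdeal_eq, ← Localization.AtPrime.map_eq_maximalIdeal, Ideal.map_bot]
  let _ : Field (Localization.AtPrime (⊥ : Ideal (R ⧸ P))) := hfield.toField
  infer_instance

end Pool.Agent.Results.MP_9ff724_al.ExcellentRegularFPure
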